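import Pool.Agent.H8.TX.Targets
import Pool.Agent.H18.HX.TWI

/-!
# Board tx_modules, row TUP: the number of preimages for the self-map of the hypersurface
-/

set_option autoImplicit false

open MvPolynomial
open Pool.Agent.H12.ZD (pmap)
open Pool.Agent.H18.HIT Pool.Agent.H18.HX Pool.Agent.H18.VZ
open Pool.Agent.H8.ZA (HFam Const NA)
open Pool.Agent.H8.TD (lc dg Wsp Cop dh)
open Pool.Agent.H8.TX

namespace Pool.Agent.H26.TX

theorem pf_TUP (hELI : T_ELI) (hPTS : T_PTS) : T_TUP := by
  classical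
  intro L N r δ d e k _ _ _ I hI l P Δ g F hpro hhom hd hg hs hF hFl hsF hup
  obtain ⟨pts1, pts2, pts3⟩ := hPTS L N r δ k I l P Δ hpro hhom
  have hPp : (Ideal.span {P}).IsPrime :=
    (Ideal.span_singleton_prime hpro.hyp.irr.ne_zero).mpr hpro.hyp.irr.prime
  obtain ⟨D', hD'⟩ : ∃ D' : Po L k, D' = aeval (fun j : Fin N => l j.succ) Δ := ⟨_, rfl⟩
  have hDI : D' ∉ I := by rw [hD']; exact Pool.Agent.H18.VZ.den_notMem hpro
  have hupD : aeval l (up Δ) = D' := by rw [hD', up, aeval_rename]; rfl
  have hupP : up Δ ∉ Ideal.span {P} := by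
    rw [Ideal.mem_span_singleton]
    intro h
    have h1 := (hpro.ker _).mpr h
    rw [hupD] at h1
    exact hDI h1
  obtain ⟨c, hcI, hc⟩ := hup
  obtain ⟨c2, A, hc2P, hc2⟩ := hELI (N + 1) k (Ideal.span {P}) F hsF (up Δ) hupP
  obtain ⟨c1, hc1⟩ := den_all hpro c
  rw [← hD'] at hc1
  have hc1P : c1 ∉ Ideal.span {P} := by
    rw [Ideal.mem_span_singleton]
    intro h
    have h1 := (hpro.ker _).mpr h
    have h3 := I.add_mem hc1 h1
    rw [sub_add_cancel] at h3
    exact (hI.mem_or_mem h3).elim hDI hcI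
  have hupe : ∀ z : Fin (N + 1) → k, eval z (up Δ) = eval (fun j : Fin N => z j.succ) Δ := by
    intro z
    rw [up, eval_rename]
    rfl
  refine ⟨c1 * c2 * up Δ, ?_, fun y hy hyc S hS1 hS2 => ?_⟩
  · intro h
    rcases hPp.mem_or_mem h with h | h
    · exact (hPp.mem_or_mem h).elim hc1P hc2P
    · exact hupP h
  rw [map_mul, map_mul] at hyc
  have hyΔ : eval (fun j : Fin N => y j.succ) Δ ≠ 0 := by
    rw [← hupe]
    exact right_ne_zero_of_mul hyc
  have hyc1 : eval y c1 ≠ 0 := left_ne_zero_of_mul (left_ne_zero_of_mul hyc)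
  have hyc2 : eval y c2 ≠ 0 := right_ne_zero_of_mul (left_ne_zero_of_mul hyc)
  obtain ⟨b, hb, hby⟩ := pts2 y (zer_span.mp hy) hyΔ
  have hbc : eval b c ≠ 0 := by
    have h1 := hb _ hc1
    have h2 : eval b (aeval l c1) = eval y c1 := by
      rw [eval_aeval_gen]
      congr 2
      exact funext hby
    rw [map_sub, map_mul, h2, sub_eq_zero] at h1
    rw [← h1] at hyc1
    exact right_ne_zero_of_mul hyc1
  -- the denominator does not vanish at the preimages
  have hSΔ : ∀ x ∈ S, eval (fun j : Fin N => x j.succ) Δ ≠ 0 := by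
    intro x hx
    have h1 := (hS1 x hx).1 _ hc2
    rw [map_sub, map_mul, sub_eq_zero, eval_aeval, (hS1 x hx).2] at h1
    rw [h1] at hyc2
    rw [← hupe]
    exact left_ne_zero_of_mul hyc2
  have hlin : ∀ (s : k) (x : Fin L → k) (i : Fin (N + 1)),
      eval (fun j => s * x j) (l i) = s * eval x (l i) := by
    intro s x i
    rw [eval_smul_of_hom (hpro.lin i), pow_one]
  -- lifting of a preimage
  have hlift : ∀ x : Fin (N + 1) → k, ∃ z : Fin L → k, x ∈ S →
      (Zer I z ∧ pmap g z = b ∧ ∃ s : k, s ≠ 0 ∧ ∀ i, eval z (l i) = s * x i) := by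
    intro x
    by_cases hx : x ∈ S
    swap
    · exact ⟨0, fun h => absurd h hx⟩
    have hxΔ := hSΔ x hx
    obtain ⟨a, ha, hax⟩ := pts2 x (zer_span.mp (hS1 x hx).1) hxΔ
    obtain ⟨s, hs'⟩ := IsAlgClosed.exists_pow_nat_eq
      (eval (fun j : Fin N => x j.succ) Δ) (by omega : 0 < d)
    have hs0 : s ≠ 0 := by
      intro h0
      rw [h0, zero_pow (by omega)] at hs'
      exact hxΔ hs'.symm
    have hzer : Zer I (fun i => s * a i) := zer_smul hhom ha s
    refine ⟨fun i => s * a i, fun _ => ⟨hzer, ?_, s, hs0, fun i => ?_⟩⟩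
    · have hga : Zer I (pmap g a) := by
        intro q hq
        have h1 : aeval g q ∈ I := hs.inv q hq
        have h2 := ha _ h1
        rw [eval_aeval] at h2
        exact h2
      have h3 : pmap g (fun j => s * a j) = fun j => s ^ d * pmap g a j :=
        pmap_smul_of_hom hg s a
      rw [h3]
      have hl : ∀ i, eval (fun j => s ^ d * pmap g a j) (l i) = y i := by
        intro i
        rw [hlin, hs']
        have h4 := ha _ (hFl i)
        rw [map_sub, map_mul, sub_eq_zero, eval_aeval, eval_aeval_gen, eval_aeval_gen] at h4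
        have h5 : (fun j => eval a (l j)) = x := funext hax
        have h6 : (fun j : Fin N => eval a (l j.succ)) = fun j => x j.succ := by
          funext j
          exact hax j.succ
        rw [h5, h6] at h4
        rw [h4]
        exact congrFun (hS1 x hx).2 i
      apply pts3 _ _ (zer_smul hhom hga _) hb
      · intro i
        rw [hl, hby]
      · have h7 : (fun j : Fin N => eval (fun j => s ^ d * pmap g a j) (l j.succ)) =
            fun j => y j.succ := by
          funext j
          exact hl j.succ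
        rw [h7]
        exact hyΔ
    · rw [hlin, hax]
  choose z hz using hlift
  have hinj : ∀ x ∈ S, ∀ x' ∈ S, ∀ t : k, (∀ i, z x' i = t * z x i) → x' = x := by
    intro x hx x' hx' t ht
    obtain ⟨-, -, s, hs0, hsl⟩ := hz x hx
    obtain ⟨-, -, s', hs0', hsl'⟩ := hz x' hx'
    apply hS2 x hx x' hx' (s'⁻¹ * (t * s))
    intro i
    have h1 : z x' = fun i => t * z x i := funext ht
    have h2 := hsl' i
    rw [h1, hlin, hsl i] at h2
    rw [mul_assoc, mul_assoc, h2, ← mul_assoc, inv_mul_cancel₀ hs0', one_mul]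
  have hcard : (S.image z).card = S.card := by
    apply Finset.card_image_of_injOn
    intro x hx x' hx' h
    exact (hinj x hx x' hx' 1 fun i => by rw [one_mul]; exact (congrFun h i).symm).symm
  rw [← hcard]
  apply hc b hb hbc
  · intro w hw
    rw [Finset.mem_image] at hw
    obtain ⟨x, hx, rfl⟩ := hw
    exact ⟨(hz x hx).1, (hz x hx).2.1⟩
  · intro w hw w' hw' t ht
    rw [Finset.mem_image] at hw hw'
    obtain ⟨x, hx, rfl⟩ := hw
    obtain ⟨x', hx', rfl⟩ := hw'
    rw [hinj x hx x' hx' t ht]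

end Pool.Agent.H26.TX
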